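import Pool.Agent.Run7.h7.C1Ball

/-!
# Homeomorphisms between smooth structures on `S¹ × S³` and `S¹ ×~ S³` which are, in one of the two
directions, of class `C^1` and of corank at most one, or cone monotone, near every point

Let `X` be one of the two topological 4-manifolds `S¹ × S³` and `S¹ ×~ S³` (the twisted product, as
the unit sphere bundle of the sum of the Moebius line bundle and a trivial bundle of rank three). We
consider the smooth 4-manifolds homeomorphic to `X` and the homeomorphisms `g` between them which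
have one of the following properties at every point `x` (the property may depend on the point):

* `g` is a local diffeomorphism at `x`, or cone monotone at `x`;
* `g` is of class `C^1` near `x`, and its derivative at `x` has rank at least three;
* `g⁻¹` is of class `C^1` near `g x`, and its derivative at `g x` has rank at least three.

The members of the least class which contains these homeomorphisms and is closed under inverses,
compositions and limits are exactly the limits of diffeomorphisms. So a smooth structure on `X` which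
is related to the standard one by a member of the class is diffeomorphic to it.
-/

set_option autoImplicit false

open Set Filter Topology Metric Function
open scoped Manifold ContDiff

noncomputable section

namespace Pool.Agent.Results.MP_6db3ee_gt.ClassC1CorankOne

/-- `ℝ⁴` -/
abbrev R4 : Type := EuclideanSpace ℝ (Fin 4)

/-- the product `S¹ × S³` -/
abbrev Prod13 : Type := Circle × Metric.sphere (0 : R4) 1

/-- the twisted product: the unit sphere bundle of the sum of the Moebius line bundle over the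
circle (the line over `p` consists of the `z` with `z ^ 2 = |z| ^ 2 p`) and a trivial bundle of
rank three -/
abbrev Twisted13 : Type := {p : ℂ × ℂ × EuclideanSpace ℝ (Fin 3) //
  ‖p.1‖ = 1 ∧ p.2.1 ^ 2 = ((‖p.2.1‖ ^ 2 : ℝ) : ℂ) * p.1 ∧ ‖p.2.1‖ ^ 2 + ‖p.2.2‖ ^ 2 = 1}

/-- `Twisted13` is compact -/
theorem twisted_compact : CompactSpace Twisted13 := by
  refine isCompact_iff_compactSpace.1 ?_
  have hcl : IsClosed {p : ℂ × ℂ × EuclideanSpace ℝ (Fin 3) |
      ‖p.1‖ = 1 ∧ p.2.1 ^ 2 = ((‖p.2.1‖ ^ 2 : ℝ) : ℂ) * p.1 ∧ ‖p.2.1‖ ^ 2 + ‖p.2.2‖ ^ 2 = 1} := by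
    refine IsClosed.inter ?_ (IsClosed.inter ?_ ?_)
    · exact isClosed_eq (by fun_prop) (by fun_prop)
    · exact isClosed_eq (by fun_prop) (by fun_prop)
    · exact isClosed_eq (by fun_prop) (by fun_prop)
  refine (((isCompact_closedBall (0 : ℂ) 1).prod ((isCompact_closedBall (0 : ℂ) 1).prod
    (isCompact_closedBall (0 : EuclideanSpace ℝ (Fin 3)) 1)))).of_isClosed_subset hcl ?_
  rintro ⟨a, b, c⟩ ⟨h1, -, h3⟩
  simp only at h1 h3
  simp only [Set.mem_prod, mem_closedBall_zero_iff]
  refine ⟨h1.le, ?_, ?_⟩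
  · nlinarith [norm_nonneg b, norm_nonneg c, sq_nonneg ‖c‖]
  · nlinarith [norm_nonneg b, norm_nonneg c, sq_nonneg ‖b‖]

/-- smooth 4-manifolds homeomorphic to `S¹ × S³` or to the twisted product -/
structure SmoothBundle where
  /-- the set of points -/
  pts : Type
  [top : TopologicalSpace pts]
  [chart : ChartedSpace R4 pts]
  smooth : IsManifold (𝓡 4) ∞ pts
  homeo : Nonempty (pts ≃ₜ Prod13) ∨ Nonempty (pts ≃ₜ Twisted13)

instance : CoeSort SmoothBundle Type := ⟨SmoothBundle.pts⟩

instance (M : SmoothBundle) : TopologicalSpace M := M.top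

instance (M : SmoothBundle) : ChartedSpace R4 M := M.chart

section defs

variable {M N : Type} [TopologicalSpace M] [TopologicalSpace N]
  [ChartedSpace R4 M] [ChartedSpace R4 N]

/-- `f` is a local diffeomorphism (of class `C^∞`, with smooth inverse) at `x` -/
def LocDiff (f : M → N) (x : M) : Prop := IsLocalDiffeomorphAt (𝓡 4) (𝓡 4) ∞ f x

/-- `f` is of class `C^1` near `x` -/
def C1Near (f : M → N) (x : M) : Prop := ∀ᶠ y in 𝓝 x, ContMDiffAt (𝓡 4) (𝓡 4) 1 f y

/-- the derivative of `f` at `x`, as a linear map from `ℝ⁴` to `ℝ⁴` (in the preferred charts) -/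
def der (f : M → N) (x : M) : R4 →L[ℝ] R4 := mfderiv (𝓡 4) (𝓡 4) f x

/-- the rank of a linear map -/
def rank (L : R4 →L[ℝ] R4) : ℕ := Module.finrank ℝ (LinearMap.range L.toLinearMap)

/-- `f` is of class `C^1` near `x`, and its derivative at `x` has rank at least three -/
def C1CorankOne (f : M → N) (x : M) : Prop := C1Near f x ∧ 3 ≤ rank (der f x)

/-- `A` is a smooth parametrization of a neighbourhood of `x = A 0` in `M` -/
def IsParam (A : R4 → M) (x : M) : Prop := A 0 = x ∧ IsLocalDiffeomorphAt (𝓡 4) (𝓡 4) ∞ A 0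

/-- `B` is a smooth coordinate system around `y` in `N` -/
def IsCoord (B : N → R4) (y : N) : Prop := IsLocalDiffeomorphAt (𝓡 4) (𝓡 4) ∞ B y

/-- For every direction `v` the increments of `h` near `0` in the directions near `v` lie in a
proper cone: there are `r > 0` and a linear functional `ℓ` with `r ‖h q - h p‖ < ℓ (h q - h p)` for
all `p`, `q` in the ball of radius `r` about `0` such that `‖q - p - t v‖ ≤ r t` for some
`t > 0`. -/
def ConeIncrements (h : R4 → R4) : Prop :=
  ∀ v : R4, v ≠ 0 → ∃ (r : ℝ) (ℓ : R4 →L[ℝ] ℝ), 0 < r ∧ ∀ p q : R4, ‖p‖ ≤ r → ‖q‖ ≤ r →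
    ∀ t : ℝ, 0 < t → ‖q - p - t • v‖ ≤ r * t → r * ‖h q - h p‖ < ℓ (h q - h p)

/-- `f` is cone monotone at `x`: it has increments in proper cones in some smooth coordinates around
`x` and around `f x`. -/
def ConeMonotone (f : M → N) (x : M) : Prop :=
  ∃ (A : R4 → M) (B : N → R4), IsParam A x ∧ IsCoord B (f x) ∧ ConeIncrements fun p => B (f (A p))

/-- the graph of `f` is contained in `O` -/
def GraphIn (f : M → N) (O : Set (M × N)) : Prop := ∀ x, (x, f x) ∈ O

end defs

/-- The least class of homeomorphisms of these smooth 4-manifolds which contains the following ones: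
at every point `x`, `g` is a local diffeomorphism or cone monotone, or of class `C^1` and of corank
at most one, or its inverse is so at `g x`; and which is closed under inverses, compositions and
limits. -/
inductive Tame : (M N : SmoothBundle) → (M ≃ₜ N) → Prop
  | loc {M N : SmoothBundle} (g : M ≃ₜ N) :
      (∀ x, LocDiff g x ∨ ConeMonotone g x ∨ C1CorankOne g x ∨ C1CorankOne g.symm (g x)) →
      Tame M N g
  | inverse {M N : SmoothBundle} (g : M ≃ₜ N) : Tame M N g → Tame N M g.symm
  | composition {M N P : SmoothBundle} (g : M ≃ₜ N) (h : N ≃ₜ P) :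
      Tame M N g → Tame N P h → Tame M P (g.trans h)
  | limit {M N : SmoothBundle} (g : M ≃ₜ N) (h : Set (M × N) → (M ≃ₜ N)) :
      (∀ O, IsOpen O → GraphIn g O → GraphIn (h O) O) →
      (∀ O, IsOpen O → GraphIn g O → Tame M N (h O)) → Tame M N g

/-- `g` is a limit of diffeomorphisms: every open neighbourhood of its graph contains the graph of a
diffeomorphism. -/
def LimitOfDiffeomorphisms (M N : SmoothBundle) (g : M ≃ₜ N) : Prop :=
  ∀ O : Set (M × N), IsOpen O → GraphIn g O →
    ∃ Φ : Diffeomorph (𝓡 4) (𝓡 4) M N ∞, GraphIn Φ O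

theorem limit_symm {M N : SmoothBundle} (g : M ≃ₜ N) (hg : LimitOfDiffeomorphisms M N g) :
    LimitOfDiffeomorphisms N M g.symm := by
  intro O hO hgO
  obtain ⟨Φ, hΦ⟩ := hg (Prod.swap ⁻¹' O) (hO.preimage continuous_swap) (fun x => by
    have := hgO (g x)
    rw [g.symm_apply_apply] at this
    exact this)
  refine ⟨Φ.symm, fun y => ?_⟩
  have := hΦ (Φ.symm y)
  rw [Φ.apply_symm_apply] at this
  exact this

theorem limit_trans {M N P : SmoothBundle} (g : M ≃ₜ N) (h : N ≃ₜ P)
    (hg : LimitOfDiffeomorphisms M N g) (hh : LimitOfDiffeomorphisms N P h) :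
    LimitOfDiffeomorphisms M P (g.trans h) := by
  intro O hO hgO
  have c1 : Continuous fun z : N × P => ((g.symm z.1, z.2) : M × P) :=
    (g.symm.continuous.comp continuous_fst).prodMk continuous_snd
  obtain ⟨Ψ, hΨ⟩ := hh ((fun z : N × P => ((g.symm z.1, z.2) : M × P)) ⁻¹' O) (hO.preimage c1)
    (fun y => by
      have := hgO (g.symm y)
      rw [Homeomorph.trans_apply, g.apply_symm_apply] at this
      exact this)
  have c2 : Continuous fun z : M × N => ((z.1, Ψ z.2) : M × P) :=
    continuous_fst.prodMk (Ψ.continuous.comp continuous_snd)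
  obtain ⟨Φ, hΦ⟩ := hg ((fun z : M × N => ((z.1, Ψ z.2) : M × P)) ⁻¹' O) (hO.preimage c2)
    (fun x => by
      have := hΨ (g x)
      simp only [mem_preimage, g.symm_apply_apply] at this
      exact this)
  exact ⟨Φ.trans Ψ, hΦ⟩

theorem loc_aux (X Y : Type) [TopologicalSpace X] [TopologicalSpace Y] [T2Space X]
    [CompactSpace X] [ChartedSpace R4 X] [ChartedSpace R4 Y] [IsManifold (𝓡 4) ∞ X]
    [IsManifold (𝓡 4) ∞ Y] (g : X ≃ₜ Y)
    (hc : ∀ x : X, LocDiff g x ∨ ConeMonotone g x ∨ C1CorankOne g x ∨ C1CorankOne g.symm (g x))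
    (O : Set (X × Y)) (hO : IsOpen O) (hgO : GraphIn g O) :
    ∃ Φ : Diffeomorph (𝓡 4) (𝓡 4) X Y ∞, GraphIn Φ O := by
  refine Run7.h7.mixedClosed (n := 4) (by norm_num) X Y g (fun x => ?_) O hO hgO
  rcases hc x with h | ⟨A, B, ⟨h1, h2⟩, h3, h4⟩ | ⟨h1, h2⟩ | ⟨h1, h2⟩
  · exact Or.inl (Or.inl h)
  · exact Or.inl (Or.inr ⟨B, h3, A, h1, h2, h4⟩)
  · exact Or.inr (Or.inl ⟨h1.self_of_nhds, Nat.succ_le_succ h2⟩)
  · exact Or.inr (Or.inr ⟨h1.self_of_nhds, Nat.succ_le_succ h2⟩)

theorem limit_of_tame {M N : SmoothBundle} (g : M ≃ₜ N) (hg : Tame M N g) :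
    LimitOfDiffeomorphisms M N g := by
  induction hg with
  | @loc M N g hc =>
    have := M.smooth
    have := N.smooth
    have hT : T2Space M ∧ CompactSpace M := by
      rcases M.homeo with ⟨⟨e⟩⟩ | ⟨⟨e⟩⟩
      · exact ⟨e.symm.t2Space, e.symm.compactSpace⟩
      · have := twisted_compact
        exact ⟨e.symm.t2Space, e.symm.compactSpace⟩
    have := hT.1
    have := hT.2
    exact loc_aux M N g hc
  | inverse g _ ih => exact limit_symm g ih
  | composition g h _ _ ih1 ih2 => exact limit_trans g h ih1 ih2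
  | limit g h h1 _ ih =>
    intro O hO hgO
    exact ih O hO hgO O hO (h1 O hO hgO)

theorem tame_of_diffeo {M N : SmoothBundle} (Φ : Diffeomorph (𝓡 4) (𝓡 4) M N ∞) :
    Tame M N Φ.toHomeomorph :=
  Tame.loc _ fun x => Or.inl (Φ.isLocalDiffeomorph x)

theorem tame_of_limit {M N : SmoothBundle} (g : M ≃ₜ N) (hg : LimitOfDiffeomorphisms M N g) :
    Tame M N g := by
  classical
  refine Tame.limit g (fun O => if h : IsOpen O ∧ GraphIn g O then
    (Classical.choose (hg O h.1 h.2)).toHomeomorph else g) ?_ ?_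
  · intro O hO hgO
    rw [dif_pos ⟨hO, hgO⟩]
    exact Classical.choose_spec (hg O hO hgO)
  · intro O hO hgO
    rw [dif_pos ⟨hO, hgO⟩]
    exact tame_of_diffeo _

theorem result (M N : SmoothBundle) (g : M ≃ₜ N) :
    (Tame M N g ↔ LimitOfDiffeomorphisms M N g) ∧
      (Tame M N g → Nonempty (Diffeomorph (𝓡 4) (𝓡 4) M N ∞)) := by
  refine ⟨⟨limit_of_tame g, tame_of_limit g⟩, fun hg => ?_⟩
  obtain ⟨Φ, -⟩ := limit_of_tame g hg univ isOpen_univ (fun _ => mem_univ _)
  exact ⟨Φ⟩

end Pool.Agent.Results.MP_6db3ee_gt.ClassC1CorankOne
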