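import Pool.Agent.R765.ClosedCO
import Pool.Agent.R765.CAll
import Pool.Agent.Run7.h60.AABdry

/-!
# Smooth structures on `S¹ × S³` and `S¹ ×~ S³` which are joined by tame homeomorphisms

Let `M` and `N` be smooth 4-manifolds homeomorphic to `S¹ × S³`, or both to the twisted product. They
are diffeomorphic if there is a homeomorphism `g : M → N` in the following class, and then every
neighbourhood of the graph of `g` contains the graph of a diffeomorphism. It is the least class of
homeomorphisms between closed smooth 4-manifolds which contains the homeomorphisms which are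

* smooth (with an inverse which need not be differentiable) with derivatives of rank at least three, or
* at every point a local diffeomorphism or cone monotone, or
* at every point a local diffeomorphism or almost affine at small scales,

and which is closed under inverses, compositions and limits (`g` belongs to the class if every
neighbourhood of its graph contains the graph of a member). So if there is an exotic smooth structure
on one of the two manifolds, then its homeomorphisms to the standard one cannot even be approximated by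
compositions of such homeomorphisms and their inverses, through whatever intermediate closed smooth
4-manifolds.

Almost affine at small scales at `x`: there are a parametrization `A` around `x`, bi-Lipschitz with the
constant `K` with respect to a function `d`, and coordinates `B` around `g x` such that for
`h = B ∘ g ∘ A`, all `z` near `0` and `r = ε k` there are linear isomorphisms `L = L z k` with
`‖L⁻¹ (h (z + y) - h z) - y‖ ≤ η r` for all `y` with `‖y‖ ≤ r`, and `‖L⁻¹‖ ‖L‖² ε k → 0`, uniformly near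
`0`. The constant `η` depends only on `K`, and `d`, `K` and the sequence `ε k → 0` depend only on `g`;
the isomorphisms `L` for different `z` and `k` need not be related, their condition numbers may be
unbounded and nothing is assumed at the scales between the `ε k`.
-/

set_option autoImplicit false

open Set Filter Topology Metric Function
open scoped Manifold ContDiff

noncomputable section

namespace Pool.Agent.Results.MP_6db3ee_gt.TameHomeomorphisms

/-- `ℝ⁴` -/
abbrev R4 : Type := EuclideanSpace ℝ (Fin 4)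

/-- the product `S¹ × S³` -/
abbrev Prod13 : Type := Circle × Metric.sphere (0 : R4) 1

/-- the twisted product: the unit sphere bundle of the sum of the Moebius line bundle over the
circle (the line over `p` consists of the `z` with `z ^ 2 = |z| ^ 2 p`) and a trivial bundle of
rank three -/
abbrev Twisted13 : Type := {p : ℂ × ℂ × EuclideanSpace ℝ (Fin 3) //
  ‖p.1‖ = 1 ∧ p.2.1 ^ 2 = ((‖p.2.1‖ ^ 2 : ℝ) : ℂ) * p.1 ∧ ‖p.2.1‖ ^ 2 + ‖p.2.2‖ ^ 2 = 1}

/-- closed smooth 4-manifolds -/
structure Closed4 where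
  /-- the set of points -/
  pts : Type
  [top : TopologicalSpace pts]
  [chart : ChartedSpace R4 pts]
  smooth : IsManifold (𝓡 4) ∞ pts
  compact : CompactSpace pts
  t2 : T2Space pts

instance : CoeSort Closed4 Type := ⟨Closed4.pts⟩

instance (M : Closed4) : TopologicalSpace M := M.top

instance (M : Closed4) : ChartedSpace R4 M := M.chart

section defs

variable {M N : Type} [TopologicalSpace M] [TopologicalSpace N] [ChartedSpace R4 M]
  [ChartedSpace R4 N]

/-- `f` is a map of class `C^∞` -/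
def Smooth (f : M → N) : Prop := ContMDiff (𝓡 4) (𝓡 4) ∞ f

/-- the derivative of `f` at `x`, as a linear map from `ℝ⁴` to `ℝ⁴` (in the preferred charts) -/
def der (f : M → N) (x : M) : R4 →L[ℝ] R4 := mfderiv (𝓡 4) (𝓡 4) f x

/-- the rank of a linear map -/
def rank (L : R4 →L[ℝ] R4) : ℕ := Module.finrank ℝ (LinearMap.range L.toLinearMap)

/-- `f` is a local diffeomorphism (of class `C^∞`, with smooth inverse) at `x` -/
def LocDiff (f : M → N) (x : M) : Prop := IsLocalDiffeomorphAt (𝓡 4) (𝓡 4) ∞ f x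

/-- For every direction `v` the increments of `h` near `0` in the directions near `v` lie in a
proper cone: there are `r > 0` and a linear functional `ℓ` with `r ‖h q - h p‖ < ℓ (h q - h p)` for
all `p`, `q` in the ball of radius `r` about `0` such that `‖q - p - t v‖ ≤ r t` for some
`t > 0`. -/
def ConeIncrements (h : R4 → R4) : Prop :=
  ∀ v : R4, v ≠ 0 → ∃ (r : ℝ) (ℓ : R4 →L[ℝ] ℝ), 0 < r ∧ ∀ p q : R4, ‖p‖ ≤ r → ‖q‖ ≤ r →
    ∀ t : ℝ, 0 < t → ‖q - p - t • v‖ ≤ r * t → r * ‖h q - h p‖ < ℓ (h q - h p)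

/-- `f` is cone monotone at `x`: it has increments in proper cones in some smooth coordinates
around `x = A 0` and around `f x` -/
def ConeMonotone (f : M → N) (x : M) : Prop :=
  ∃ (A : R4 → M) (B : N → R4), A 0 = x ∧ LocDiff A 0 ∧ LocDiff B (f x) ∧
    ConeIncrements fun p => B (f (A p))

/-- `A` is bi-Lipschitz near `0` with the constant `K`, with respect to `d` -/
def BiLipschitz (d : M → M → ℝ) (K : ℝ) (A : R4 → M) : Prop :=
  ∀ᶠ q : R4 × R4 in 𝓝 0, d (A q.1) (A q.2) ≤ K * ‖q.1 - q.2‖ ∧
    ‖q.1 - q.2‖ ≤ K * d (A q.1) (A q.2)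

/-- `h` is almost affine near `0` at the scales `ε k`, with linear parts `L z k`: on the ball of radius
`ε k` about `z` it differs from an affine map with the linear part `L z k` by at most `η ε k`, measured
after applying the inverse of `L z k`, and `‖(L z k)⁻¹‖ ‖L z k‖² ε k → 0` -/
def AlmostAffine (η : ℝ) (ε : ℕ → ℝ) (h : R4 → R4) : Prop :=
  ∃ (ρ : ℝ) (L : R4 → ℕ → (R4 ≃L[ℝ] R4)), 0 < ρ ∧
    (∀ᶠ k in atTop, ∀ z : R4, ‖z‖ < ρ →
      ∀ y : R4, ‖y‖ ≤ ε k → ‖(L z k).symm (h (z + y) - h z) - y‖ ≤ η * ε k) ∧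
    ∀ δ : ℝ, 0 < δ → ∀ᶠ k in atTop, ∀ z : R4, ‖z‖ < ρ →
      ‖((L z k).symm : R4 →L[ℝ] R4)‖ * ‖(L z k : R4 →L[ℝ] R4)‖ ^ 2 * ε k ≤ δ

/-- `f` is almost affine at `x`, in a parametrization which is bi-Lipschitz with the constant `K` and
in some coordinates of the target -/
def AlmostAffineAt (d : M → M → ℝ) (K η : ℝ) (ε : ℕ → ℝ) (f : M → N) (x : M) : Prop :=
  ∃ (A : R4 → M) (B : N → R4), A 0 = x ∧ LocDiff A 0 ∧ LocDiff B (f x) ∧ BiLipschitz d K A ∧
    AlmostAffine η ε fun z => B (f (A z))

/-- the graph of `f` is contained in `O` -/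
def GraphIn (f : M → N) (O : Set (M × N)) : Prop := ∀ x, (x, f x) ∈ O

end defs

/-- The least class of homeomorphisms of closed smooth 4-manifolds which contains the smooth ones with
derivatives of rank at least three and the ones which are everywhere local diffeomorphisms or cone
monotone, or everywhere local diffeomorphisms or almost affine, and which is closed under inverses,
compositions and limits. -/
inductive Tame (η : ℝ → ℝ) : (M N : Closed4) → (M ≃ₜ N) → Prop
  | corankOne {M N : Closed4} (g : M ≃ₜ N) :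
      Smooth g → (∀ x, 3 ≤ rank (der g x)) → Tame η M N g
  | coneMonotone {M N : Closed4} (g : M ≃ₜ N) :
      (∀ x, LocDiff g x ∨ ConeMonotone g x) → Tame η M N g
  | almostAffine {M N : Closed4} (g : M ≃ₜ N) (d : M → M → ℝ) (K : ℝ) (ε : ℕ → ℝ) : 1 ≤ K →
      (∀ k, 0 < ε k) → Tendsto ε atTop (𝓝 0) →
      (∀ x, LocDiff g x ∨ AlmostAffineAt d K (η K) ε g x) → Tame η M N g
  | inverse {M N : Closed4} (g : M ≃ₜ N) : Tame η M N g → Tame η N M g.symm
  | composition {M N P : Closed4} (g : M ≃ₜ N) (h : N ≃ₜ P) :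
      Tame η M N g → Tame η N P h → Tame η M P (g.trans h)
  | limit {M N : Closed4} (g : M ≃ₜ N) (h : Set (M × N) → (M ≃ₜ N)) :
      (∀ O, IsOpen O → GraphIn g O → GraphIn (h O) O) →
      (∀ O, IsOpen O → GraphIn g O → Tame η M N (h O)) → Tame η M N g

/-- every neighbourhood of the graph of `g` contains the graph of a diffeomorphism -/
def LimitOfDiffeomorphisms (M N : Closed4) (g : M ≃ₜ N) : Prop :=
  ∀ O : Set (M × N), IsOpen O → GraphIn g O →
    ∃ Φ : Diffeomorph (𝓡 4) (𝓡 4) M N ∞, GraphIn Φ O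

theorem lim_symm {M N : Closed4} (g : M ≃ₜ N) (hg : LimitOfDiffeomorphisms M N g) :
    LimitOfDiffeomorphisms N M g.symm := by
  intro O hO hgO
  obtain ⟨Φ, hΦ⟩ := hg (Prod.swap ⁻¹' O) (hO.preimage continuous_swap) (fun x => by
    have := hgO (g x)
    rw [g.symm_apply_apply] at this
    exact this)
  refine ⟨Φ.symm, fun y => ?_⟩
  have := hΦ (Φ.symm y)
  rw [Φ.apply_symm_apply] at this
  exact this

theorem lim_trans {M N P : Closed4} (g : M ≃ₜ N) (h : N ≃ₜ P)
    (hg : LimitOfDiffeomorphisms M N g) (hh : LimitOfDiffeomorphisms N P h) :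
    LimitOfDiffeomorphisms M P (g.trans h) := by
  intro O hO hgO
  have c1 : Continuous fun z : N × P => ((g.symm z.1, z.2) : M × P) :=
    (g.symm.continuous.comp continuous_fst).prodMk continuous_snd
  obtain ⟨Ψ, hΨ⟩ := hh ((fun z : N × P => ((g.symm z.1, z.2) : M × P)) ⁻¹' O)
    (hO.preimage c1) (fun y => by
      have := hgO (g.symm y)
      rw [Homeomorph.trans_apply, g.apply_symm_apply] at this
      exact this)
  have c2 : Continuous fun z : M × N => ((z.1, Ψ z.2) : M × P) :=
    continuous_fst.prodMk (Ψ.continuous.comp continuous_snd)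
  obtain ⟨Φ, hΦ⟩ := hg ((fun z : M × N => ((z.1, Ψ z.2) : M × P)) ⁻¹' O)
    (hO.preimage c2) (fun x => by
      have := hΨ (g x)
      simp only [mem_preimage, g.symm_apply_apply] at this
      exact this)
  exact ⟨Φ.trans Ψ, hΦ⟩

theorem corank_aux (X Y : Type) [TopologicalSpace X] [TopologicalSpace Y]
    [ChartedSpace R4 X] [ChartedSpace R4 Y] (hX1 : IsManifold (𝓡 4) ∞ X) (hX2 : T2Space X)
    (hX3 : CompactSpace X) (hY : IsManifold (𝓡 4) ∞ Y) (g : X ≃ₜ Y) (hg : Smooth g)
    (hr : ∀ x, 3 ≤ rank (der g x)) (O : Set (X × Y)) (hO : IsOpen O) (hgO : GraphIn g O) :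
    ∃ Φ : Diffeomorph (𝓡 4) (𝓡 4) X Y ∞, GraphIn Φ O :=
  Pool.Agent.R765.corankOneClosed 3 X Y g hg hr O hO hgO

theorem bad_compact {X Y : Type} [TopologicalSpace X] [TopologicalSpace Y]
    [ChartedSpace R4 X] [ChartedSpace R4 Y] [CompactSpace X] (g : X → Y) :
    IsCompact {x | ¬ Pool.Agent.Y522.LD 4 g x} := by
  apply IsClosed.isCompact
  rw [← isOpen_compl_iff, isOpen_iff_mem_nhds]
  intro x hx'
  have h1 : Pool.Agent.Y522.LD 4 g x := by
    by_contra h
    exact hx' h
  filter_upwards [h1.eventually] with y hy h2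
  exact h2 hy

theorem cone_aux (X Y : Type) [TopologicalSpace X] [TopologicalSpace Y]
    [ChartedSpace R4 X] [ChartedSpace R4 Y] (hX1 : IsManifold (𝓡 4) ∞ X) (hX2 : T2Space X)
    (hX3 : CompactSpace X) (hY : IsManifold (𝓡 4) ∞ Y) (g : X ≃ₜ Y)
    (hg : ∀ x, LocDiff g x ∨ ConeMonotone g x)
    (O : Set (X × Y)) (hO : IsOpen O) (hgO : GraphIn g O) :
    ∃ Φ : Diffeomorph (𝓡 4) (𝓡 4) X Y ∞, GraphIn Φ O := by
  obtain ⟨F, C, hC, hF, hd, hG, hoff⟩ := Pool.Agent.R765.coneMonotone 4 X Y g O (fun x => by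
    rcases hg x with h | ⟨A, B, h1, h2, h3, h4⟩
    · exact Or.inl h
    · exact Or.inr ⟨B, h3, A, h1, h2, h4⟩) (bad_compact g) hO hgO
  have hl : IsLocalDiffeomorph (𝓡 4) (𝓡 4) ∞ F := hd
  exact ⟨hl.diffeomorphOfBijective hF, hG⟩

theorem affine_aux (X Y : Type) [TopologicalSpace X] [TopologicalSpace Y]
    [ChartedSpace R4 X] [ChartedSpace R4 Y] (hX1 : IsManifold (𝓡 4) ∞ X) (hX2 : T2Space X)
    (hX3 : CompactSpace X) (hY : IsManifold (𝓡 4) ∞ Y) (g : X ≃ₜ Y) (d : X → X → ℝ) {K : ℝ}
    (hK : 1 ≤ K) {ε : ℕ → ℝ} (hε : ∀ k, 0 < ε k) (hε0 : Tendsto ε atTop (𝓝 0))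
    (hg : ∀ x, LocDiff g x ∨ AlmostAffineAt d K (Run7.h60.Sc.eta 4 K) ε g x)
    (O : Set (X × Y)) (hO : IsOpen O) (hgO : GraphIn g O) :
    ∃ Φ : Diffeomorph (𝓡 4) (𝓡 4) X Y ∞, GraphIn Φ O := by
  obtain ⟨F, C, hC, hF, hd, hG, hoff⟩ := Run7.h60.Sc.affMain g d hK hε hε0 O (fun x => by
    rcases hg x with h | ⟨A, B, h1, h2, h3, h4, ρ, L, h5, h6, h7⟩
    · exact Or.inl h
    · exact Or.inr ⟨A, B, h1, h2, h3, h4, ρ, fun p => L p.1 p.2, h5, h6, h7⟩)
    (bad_compact g) hO hgO
  have hl : IsLocalDiffeomorph (𝓡 4) (𝓡 4) ∞ F := hd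
  exact ⟨hl.diffeomorphOfBijective hF, hG⟩

theorem lim_of_tame {M N : Closed4} (g : M ≃ₜ N)
    (hg : Tame (fun K => Run7.h60.Sc.eta 4 K) M N g) : LimitOfDiffeomorphisms M N g := by
  induction hg with
  | @corankOne M N g hs hr =>
    exact corank_aux M N M.smooth M.t2 M.compact N.smooth g hs hr
  | @coneMonotone M N g hc => exact cone_aux M N M.smooth M.t2 M.compact N.smooth g hc
  | @almostAffine M N g d K ε hK hε hε0 hc =>
    exact affine_aux M N M.smooth M.t2 M.compact N.smooth g d hK hε hε0 hc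
  | inverse g _ ih => exact lim_symm g ih
  | composition g h _ _ ih1 ih2 => exact lim_trans g h ih1 ih2
  | limit g h h1 _ ih => exact fun O hO hgO => ih O hO hgO O hO (h1 O hO hgO)

/-- **Smooth structures on `S¹ × S³` and `S¹ ×~ S³` which are joined by a tame homeomorphism are
diffeomorphic.** -/
theorem result : ∃ η : ℝ → ℝ, (∀ K, 1 ≤ K → 0 < η K) ∧ ∀ M N : Closed4,
    (Nonempty (M ≃ₜ Prod13) ∨ Nonempty (M ≃ₜ Twisted13)) →
    ∀ g : M ≃ₜ N, Tame η M N g → LimitOfDiffeomorphisms M N g :=
  ⟨fun K => Run7.h60.Sc.eta 4 K, fun _ hK => Run7.h60.Sc.eta_pos hK,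
    fun _ _ _ g hg => lim_of_tame g hg⟩

end Pool.Agent.Results.MP_6db3ee_gt.TameHomeomorphisms
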