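import Pool.Agent.Run7.h7.QFam
import Pool.Agent.Run7.h7.C1Ball

/-!
# Homeomorphisms between smooth structures on `S¹ × S³` and `S¹ ×~ S³` with three coordinates of
class `C^1`

Let `g : M → N` be a homeomorphism of smooth 4-manifolds homeomorphic to one of the two 4-manifolds
`S¹ × S³` and `S¹ ×~ S³` (the twisted product, as the unit sphere bundle of the sum of the Moebius
line bundle and a trivial bundle of rank three). We assume that near every point at which `g` is not a
local diffeomorphism three of the four coordinates of `g` are of class `C^1`, with independent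
derivatives, and that nothing is known about the fourth one (it is continuous). The coordinates may
depend on the point: they are taken from a family of submersions `q j : dom j → ℝ³` of class `C^1`,
defined on open subsets of `N`, any two of which are at each common point transversal or have the same
fibres near this point (for instance the submersions which define finitely many pairwise transversal
foliations of dimension one). Points near which `g` is of class `C^1` with a derivative of rank at
least three are also allowed. Then `g` is a limit of diffeomorphisms; in particular `M` and `N` are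
diffeomorphic.

For example, `M` and `N` are diffeomorphic if there are maps `p : M → B` and `q : N → B` to a smooth
3-manifold `B` (such as `S³`) and a homeomorphism `g : M → N` over `B` which is a local diffeomorphism
at every point `x` such that `p` is not a submersion of class `C^1` at `x` or `q` is not one at `g x`.
-/

set_option autoImplicit false

open Set Filter Topology Metric Function
open scoped Manifold ContDiff

noncomputable section

namespace Pool.Agent.Results.MP_6db3ee_gt.TransverselyC1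

/-- `ℝ⁴` -/
abbrev R4 : Type := EuclideanSpace ℝ (Fin 4)

/-- `ℝ³` -/
abbrev R3 : Type := EuclideanSpace ℝ (Fin 3)

/-- the product `S¹ × S³` -/
abbrev Prod13 : Type := Circle × Metric.sphere (0 : R4) 1

/-- the twisted product: the unit sphere bundle of the sum of the Moebius line bundle over the
circle (the line over `p` consists of the `z` with `z ^ 2 = |z| ^ 2 p`) and a trivial bundle of
rank three -/
abbrev Twisted13 : Type := {p : ℂ × ℂ × EuclideanSpace ℝ (Fin 3) //
  ‖p.1‖ = 1 ∧ p.2.1 ^ 2 = ((‖p.2.1‖ ^ 2 : ℝ) : ℂ) * p.1 ∧ ‖p.2.1‖ ^ 2 + ‖p.2.2‖ ^ 2 = 1}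

/-- `Twisted13` is compact -/
theorem twisted_compact : CompactSpace Twisted13 := by
  refine isCompact_iff_compactSpace.1 ?_
  have hcl : IsClosed {p : ℂ × ℂ × EuclideanSpace ℝ (Fin 3) |
      ‖p.1‖ = 1 ∧ p.2.1 ^ 2 = ((‖p.2.1‖ ^ 2 : ℝ) : ℂ) * p.1 ∧ ‖p.2.1‖ ^ 2 + ‖p.2.2‖ ^ 2 = 1} := by
    refine IsClosed.inter ?_ (IsClosed.inter ?_ ?_)
    · exact isClosed_eq (by fun_prop) (by fun_prop)
    · exact isClosed_eq (by fun_prop) (by fun_prop)
    · exact isClosed_eq (by fun_prop) (by fun_prop)
  refine (((isCompact_closedBall (0 : ℂ) 1).prod ((isCompact_closedBall (0 : ℂ) 1).prod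
    (isCompact_closedBall (0 : EuclideanSpace ℝ (Fin 3)) 1)))).of_isClosed_subset hcl ?_
  rintro ⟨a, b, c⟩ ⟨h1, -, h3⟩
  simp only at h1 h3
  simp only [Set.mem_prod, mem_closedBall_zero_iff]
  refine ⟨h1.le, ?_, ?_⟩
  · nlinarith [norm_nonneg b, norm_nonneg c, sq_nonneg ‖c‖]
  · nlinarith [norm_nonneg b, norm_nonneg c, sq_nonneg ‖b‖]

/-- smooth 4-manifolds homeomorphic to `S¹ × S³` or to the twisted product -/
structure SmoothBundle where
  /-- the set of points -/
  pts : Type
  [top : TopologicalSpace pts]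
  [chart : ChartedSpace R4 pts]
  smooth : IsManifold (𝓡 4) ∞ pts
  homeo : Nonempty (pts ≃ₜ Prod13) ∨ Nonempty (pts ≃ₜ Twisted13)

instance : CoeSort SmoothBundle Type := ⟨SmoothBundle.pts⟩

instance (M : SmoothBundle) : TopologicalSpace M := M.top

instance (M : SmoothBundle) : ChartedSpace R4 M := M.chart

/-- smooth 3-manifolds (without boundary) -/
structure Manifold3 where
  /-- the set of points -/
  pts : Type
  [top : TopologicalSpace pts]
  [chart : ChartedSpace R3 pts]
  smooth : IsManifold (𝓡 3) ∞ pts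

instance : CoeSort Manifold3 Type := ⟨Manifold3.pts⟩

instance (B : Manifold3) : TopologicalSpace B := B.top

instance (B : Manifold3) : ChartedSpace R3 B := B.chart

section defs

variable {M N B : Type} [TopologicalSpace M] [TopologicalSpace N] [TopologicalSpace B]
  [ChartedSpace R4 M] [ChartedSpace R4 N] [ChartedSpace R3 B]

/-- `f` is a local diffeomorphism (of class `C^∞`, with smooth inverse) at `x` -/
def LocDiff (f : M → N) (x : M) : Prop := IsLocalDiffeomorphAt (𝓡 4) (𝓡 4) ∞ f x

/-- `f` is of class `C^1` near `x` -/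
def C1Near (f : M → N) (x : M) : Prop := ∀ᶠ y in 𝓝 x, ContMDiffAt (𝓡 4) (𝓡 4) 1 f y

/-- the derivative of `f` at `x`, as a linear map from `ℝ⁴` to `ℝ⁴` (in the preferred charts) -/
def der (f : M → N) (x : M) : R4 →L[ℝ] R4 := mfderiv (𝓡 4) (𝓡 4) f x

/-- the rank of a linear map -/
def rank (L : R4 →L[ℝ] R4) : ℕ := Module.finrank ℝ (LinearMap.range L.toLinearMap)

/-- `f` is of class `C^1` near `x`, and its derivative at `x` has rank at least three -/
def C1CorankOne (f : M → N) (x : M) : Prop := C1Near f x ∧ 3 ≤ rank (der f x)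

/-- the derivative at `y` of a map to a 3-manifold, as a linear map from `ℝ⁴` to `ℝ³` (in the
preferred charts) -/
def der3 (q : N → B) (y : N) : R4 →L[ℝ] R3 := mfderiv (𝓡 4) (𝓡 3) q y

/-- `q` is of class `C^1` near `y`, and its derivative at `y` is surjective -/
def Submersion (q : N → B) (y : N) : Prop :=
  (∀ᶠ z in 𝓝 y, ContMDiffAt (𝓡 4) (𝓡 3) 1 q z) ∧ Surjective (der3 q y)

/-- no nonzero vector is in the kernels of both derivatives at `y` -/
def Transversal (q q' : N → R3) (y : N) : Prop :=
  ∀ v : R4, der3 q y v = 0 → der3 q' y v = 0 → v = 0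

/-- near `y`, the map `q'` is constant on the fibres of `q` -/
def SameFibres (q q' : N → R3) (y : N) : Prop :=
  ∃ W ∈ 𝓝 y, ∀ z ∈ W, ∀ z' ∈ W, q z = q z' → q' z = q' z'

/-- the graph of `f` is contained in `O` -/
def GraphIn (f : M → N) (O : Set (M × N)) : Prop := ∀ x, (x, f x) ∈ O

end defs

/-- a family of submersions of class `C^1` from open subsets of `N` to `ℝ³`, any two of which are at
every common point transversal or have the same fibres near this point -/
structure Family (N : SmoothBundle) where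
  /-- the set of indices -/
  Idx : Type
  /-- the domains -/
  dom : Idx → Set N
  /-- the maps (the values outside the domains are irrelevant) -/
  map : Idx → N → R3
  isOpen_dom : ∀ j, IsOpen (dom j)
  submersion : ∀ j, ∀ y ∈ dom j, Submersion (map j) y
  compatible : ∀ j k, ∀ y ∈ dom j, y ∈ dom k →
    Transversal (map j) (map k) y ∨ SameFibres (map j) (map k) y

/-- three coordinates of `g` near `x`, given by a member of the family near `g x`, are of class `C^1`
with independent derivatives -/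
def ThreeC1 {M N : SmoothBundle} (𝓕 : Family N) (g : M → N) (x : M) : Prop :=
  ∃ j, g x ∈ 𝓕.dom j ∧ Submersion (fun z => 𝓕.map j (g z)) x

/-- `g` is a limit of diffeomorphisms: every open neighbourhood of its graph contains the graph of a
diffeomorphism. -/
def LimitOfDiffeomorphisms (M N : SmoothBundle) (g : M → N) : Prop :=
  ∀ O : Set (M × N), IsOpen O → GraphIn g O →
    ∃ Φ : Diffeomorph (𝓡 4) (𝓡 4) M N ∞, GraphIn Φ O

theorem fam {N : SmoothBundle} (𝓕 : Family N) :
    letI : ChartedSpace (Run7.h7.E (3 + 1)) N := N.chart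
    Run7.h7.Fam 3 𝓕.dom 𝓕.map :=
  letI : ChartedSpace (Run7.h7.E (3 + 1)) N := N.chart
  ⟨𝓕.isOpen_dom, fun j y hy => ⟨(𝓕.submersion j y hy).1.self_of_nhds, (𝓕.submersion j y hy).2⟩,
    𝓕.compatible⟩

theorem first (M N : SmoothBundle) (g : M ≃ₜ N) (𝓕 : Family N)
    (hg : ∀ x, LocDiff g x ∨ C1CorankOne g x ∨ ThreeC1 𝓕 g x) : LimitOfDiffeomorphisms M N g := by
  intro O hO hgO
  let _ : ChartedSpace (Run7.h7.E (3 + 1)) M := M.chart
  let _ : ChartedSpace (Run7.h7.E (3 + 1)) N := N.chart
  have : IsManifold (𝓡 (3 + 1)) ∞ M := M.smooth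
  have : IsManifold (𝓡 (3 + 1)) ∞ N := N.smooth
  have hT : T2Space M ∧ CompactSpace M := by
    rcases M.homeo with ⟨⟨e⟩⟩ | ⟨⟨e⟩⟩
    · exact ⟨e.symm.t2Space, e.symm.compactSpace⟩
    · have := twisted_compact
      exact ⟨e.symm.t2Space, e.symm.compactSpace⟩
  have := hT.1
  have := hT.2
  obtain ⟨F, C, hC, hF, hd, hG, hoff⟩ := Run7.h7.qmixed (m := 3) (by norm_num) g (fam 𝓕)
    (fun x => by
      rcases hg x with h | ⟨h1, h2⟩ | ⟨j, h1, h2⟩
      · exact Or.inl h
      · exact Or.inr (Or.inl ⟨h1.self_of_nhds, Run7.h7.K1_of_rank (Nat.succ_le_succ h2)⟩)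
      · exact Or.inr (Or.inr ⟨j, h1, h2.1.self_of_nhds, h2.2⟩))
    (Run7.h7.isClosed_bad _).isCompact hO hgO
  have hl : IsLocalDiffeomorph (𝓡 4) (𝓡 4) ∞ F := hd
  exact ⟨hl.diffeomorphOfBijective hF, hG⟩

theorem second (M N : SmoothBundle) (g : M ≃ₜ N) (B : Manifold3) (p : M → B) (q : N → B)
    (hpq : ∀ x, q (g x) = p x)
    (hg : ∀ x, LocDiff g x ∨ C1CorankOne g x ∨ (Submersion p x ∧ Submersion q (g x))) :
    LimitOfDiffeomorphisms M N g := by
  intro O hO hgO
  let _ : ChartedSpace (Run7.h7.E (3 + 1)) M := M.chart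
  let _ : ChartedSpace (Run7.h7.E (3 + 1)) N := N.chart
  have : IsManifold (𝓡 (3 + 1)) ∞ M := M.smooth
  have : IsManifold (𝓡 (3 + 1)) ∞ N := N.smooth
  have := B.smooth
  have hT : T2Space M ∧ CompactSpace M := by
    rcases M.homeo with ⟨⟨e⟩⟩ | ⟨⟨e⟩⟩
    · exact ⟨e.symm.t2Space, e.symm.compactSpace⟩
    · have := twisted_compact
      exact ⟨e.symm.t2Space, e.symm.compactSpace⟩
  have := hT.1
  have := hT.2
  obtain rfl : p = fun x => q (g x) := funext fun x => (hpq x).symm
  obtain ⟨F, C, hC, hF, hd, hG, hoff⟩ := Run7.h7.qmixedB (m := 3) (by norm_num) g q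
    (fun x => by
      rcases hg x with h | ⟨h1, h2⟩ | ⟨h1, h2⟩
      · exact Or.inl h
      · exact Or.inr (Or.inl ⟨h1.self_of_nhds, Run7.h7.K1_of_rank (Nat.succ_le_succ h2)⟩)
      · exact Or.inr (Or.inr ⟨h2, h1⟩))
    (Run7.h7.isClosed_bad _).isCompact hO hgO
  have hl : IsLocalDiffeomorph (𝓡 4) (𝓡 4) ∞ F := hd
  exact ⟨hl.diffeomorphOfBijective hF, hG⟩

theorem result (M N : SmoothBundle) (g : M ≃ₜ N) :
    ((∃ 𝓕 : Family N, ∀ x, LocDiff g x ∨ C1CorankOne g x ∨ ThreeC1 𝓕 g x) →
      LimitOfDiffeomorphisms M N g ∧ Nonempty (Diffeomorph (𝓡 4) (𝓡 4) M N ∞)) ∧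
    ((∃ (B : Manifold3) (p : M → B) (q : N → B), (∀ x, q (g x) = p x) ∧
        ∀ x, LocDiff g x ∨ C1CorankOne g x ∨ (Submersion p x ∧ Submersion q (g x))) →
      LimitOfDiffeomorphisms M N g ∧ Nonempty (Diffeomorph (𝓡 4) (𝓡 4) M N ∞)) := by
  constructor
  · rintro ⟨𝓕, hg⟩
    have h := first M N g 𝓕 hg
    obtain ⟨Φ, -⟩ := h univ isOpen_univ (fun _ => mem_univ _)
    exact ⟨h, ⟨Φ⟩⟩
  · rintro ⟨B, p, q, hpq, hg⟩
    have h := second M N g B p q hpq hg
    obtain ⟨Φ, -⟩ := h univ isOpen_univ (fun _ => mem_univ _)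
    exact ⟨h, ⟨Φ⟩⟩

end Pool.Agent.Results.MP_6db3ee_gt.TransverselyC1
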